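import Mathlib

set_option autoImplicit false

namespace Pool.Agent.Results.MP_dc74b6_ag.Counter
open MvPolynomial

/-- a clutter on the vertex set `Fin n`: nonempty edges, none containing another -/
def IsClutter {n : ℕ} (C : Finset (Finset (Fin n))) : Prop :=
  (∀ e ∈ C, e.Nonempty) ∧ ∀ e ∈ C, ∀ e' ∈ C, e ⊆ e' → e = e'

/-- the edge ideal of a clutter -/
noncomputable def edgeIdeal (K : Type*) [Field K] {n : ℕ} (C : Finset (Finset (Fin n))) :
    Ideal (MvPolynomial (Fin n) K) :=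
  Ideal.span ((fun e : Finset (Fin n) => ∏ i ∈ e, (X i : MvPolynomial (Fin n) K)) '' (C : Set _))

/-- the substitution `x_i ↦ ∑_{j ≤ s} x_{i,j} t^j` -/
noncomputable def subst (K : Type*) [Field K] (n s : ℕ) :
    MvPolynomial (Fin n) K →ₐ[K] Polynomial (MvPolynomial (Fin n × Fin (s + 1)) K) :=
  aeval fun i => ∑ j : Fin (s + 1), Polynomial.C (X (i, j)) * Polynomial.X ^ (j : ℕ)

/-- the `s`-jet ideal, generated by the coefficients `f^{(j)}`, `f ∈ I`, `j ≤ s` -/
noncomputable def jetIdeal {K : Type*} [Field K] {n : ℕ} (s : ℕ) (I : Ideal (MvPolynomial (Fin n) K)) :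
    Ideal (MvPolynomial (Fin n × Fin (s + 1)) K) :=
  Ideal.span {g | ∃ f ∈ I, ∃ j ≤ s, g = (subst K n s f).coeff j}

/-- the path with five vertices -/
def path5 : Finset (Finset (Fin 5)) := {{0, 1}, {1, 2}, {2, 3}, {3, 4}}

variable {K : Type*} [Field K]

abbrev S (K : Type*) [Field K] := MvPolynomial (Fin 5 × Fin (1 + 1)) K

noncomputable abbrev J (K : Type*) [Field K] : Ideal (S K) := jetIdeal 1 (edgeIdeal K path5)

lemma subst_X (a : Fin 5) : subst K 5 1 (X a) =
    Polynomial.C (X (a, 0)) + Polynomial.C (X (a, 1)) * Polynomial.X := by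
  simp [subst, Fin.sum_univ_two]

lemma coeff0 (a b : Fin 5) : (subst K 5 1 (X a * X b)).coeff 0 = X (a, 0) * X (b, 0) := by
  simp [subst_X, Polynomial.mul_coeff_zero]

lemma coeff1 (a b : Fin 5) :
    (subst K 5 1 (X a * X b)).coeff 1 = X (a, 0) * X (b, 1) + X (a, 1) * X (b, 0) := by
  rw [map_mul, subst_X, subst_X, Polynomial.coeff_mul]
  simp [Finset.Nat.antidiagonal_succ, Polynomial.coeff_C]

lemma edge_mem {a b : Fin 5} (hab : a ≠ b) (h : ({a, b} : Finset (Fin 5)) ∈ path5) :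
    (X a * X b : MvPolynomial (Fin 5) K) ∈ edgeIdeal K path5 :=
  Ideal.subset_span ⟨{a, b}, h, by simp [Finset.prod_pair hab]⟩

lemma mem0 {a b : Fin 5} (hab : a ≠ b) (h : ({a, b} : Finset (Fin 5)) ∈ path5) :
    (X (a, 0) * X (b, 0) : S K) ∈ J K :=
  Ideal.subset_span ⟨_, edge_mem hab h, 0, by norm_num, (coeff0 a b).symm⟩

lemma mem1 {a b : Fin 5} (hab : a ≠ b) (h : ({a, b} : Finset (Fin 5)) ∈ path5) :
    (X (a, 0) * X (b, 1) + X (a, 1) * X (b, 0) : S K) ∈ J K :=
  Ideal.subset_span ⟨_, edge_mem hab h, 1, le_rfl, (coeff1 a b).symm⟩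

lemma J_le_ker {T : Type*} [Semiring T] (φ : S K →+* T)
    (h : ∀ a b : Fin 5, (a : ℕ) + 1 = b → φ (X (a, 0)) * φ (X (b, 0)) = 0 ∧
      φ (X (a, 0)) * φ (X (b, 1)) + φ (X (a, 1)) * φ (X (b, 0)) = 0) :
    J K ≤ RingHom.ker φ := by
  have key : ∀ a b : Fin 5, (a : ℕ) + 1 = b → ∀ j ≤ 1,
      φ ((subst K 5 1 (X a * X b)).coeff j) = 0 := by
    intro a b hab j hj
    interval_cases j
    · rw [coeff0, map_mul]; exact (h a b hab).1
    · rw [coeff1, map_add, map_mul, map_mul]; exact (h a b hab).2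
  refine Ideal.span_le.2 ?_
  rintro _ ⟨f, hf, j, hj, rfl⟩
  show φ _ = 0
  revert j
  induction hf using Submodule.span_induction with
  | mem x hx =>
    obtain ⟨e, he, rfl⟩ := hx
    simp only [path5, Finset.coe_insert, Finset.coe_singleton, Set.mem_insert_iff,
      Set.mem_singleton_iff] at he
    rcases he with rfl | rfl | rfl | rfl
    · simpa [Finset.prod_pair (show (0 : Fin 5) ≠ 1 by decide)] using key 0 1 rfl
    · simpa [Finset.prod_pair (show (1 : Fin 5) ≠ 2 by decide)] using key 1 2 rfl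
    · simpa [Finset.prod_pair (show (2 : Fin 5) ≠ 3 by decide)] using key 2 3 rfl
    · simpa [Finset.prod_pair (show (3 : Fin 5) ≠ 4 by decide)] using key 3 4 rfl
  | zero => simp
  | add x y _ _ hx hy => intro j hj; simp [hx j hj, hy j hj]
  | smul r x _ hx =>
    intro j hj
    rw [smul_eq_mul, map_mul, Polynomial.coeff_mul, map_sum]
    refine Finset.sum_eq_zero fun p hp => ?_
    rw [map_mul, hx p.2 (by simp at hp; omega), mul_zero]

/-- kills the variables of the embedded prime -/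
noncomputable def pr (K : Type*) [Field K] : S K →+* S K :=
  eval₂Hom C fun p => if p.2 = 0 ∨ p.1 = 2 then 0 else X p

/-- kills the variables of order zero -/
noncomputable def pr' (K : Type*) [Field K] : S K →+* S K :=
  eval₂Hom C fun p => if p.2 = 0 then 0 else X p

section generic
variable {A : Type*} [CommRing A] (c : K →+* A) (w : Fin 5 → A)

open TrivSqZeroExt in
noncomputable def val (p : Fin 5 × Fin (1 + 1)) : DualNumber (DualNumber A) :=
  if p.1 = 2 then 0 else if p.2 = 0 then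
    (if p.1 = 0 then inl (inr (-w 0)) else if p.1 = 1 then inl (inr (w 1))
      else if p.1 = 3 then inr (inl (w 3)) else inr (inl (-w 4)))
  else inl (inl (w p.1))

noncomputable def phi : S K →+* DualNumber (DualNumber A) :=
  eval₂Hom ((algebraMap (DualNumber A) _).comp ((algebraMap A _).comp c)) (val w)

lemma phi_X (p : Fin 5 × Fin (1 + 1)) : phi c w (X p) = val w p := by simp [phi]

lemma phi_fst (g : S K) :
    (phi c w g).fst.fst = eval₂Hom c (fun p => if p.2 = 0 ∨ p.1 = 2 then 0 else w p.1) g := by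
  induction g using MvPolynomial.induction_on with
  | C a => simp [phi, TrivSqZeroExt.algebraMap_eq_inl]
  | add p q hp hq => rw [map_add, map_add, TrivSqZeroExt.fst_add, TrivSqZeroExt.fst_add, hp, hq]
  | mul_X p i hp =>
    rw [map_mul, map_mul, TrivSqZeroExt.fst_mul, TrivSqZeroExt.fst_mul, hp, phi_X]
    congr 1
    obtain ⟨a, b⟩ := i
    fin_cases a <;> fin_cases b <;> simp [val]

omit [CommRing A] in
lemma ext4 {x y : DualNumber (DualNumber A)} (h1 : x.fst.fst = y.fst.fst) (h2 : x.fst.snd = y.fst.snd)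
    (h3 : x.snd.fst = y.snd.fst) (h4 : x.snd.snd = y.snd.snd) : x = y :=
  TrivSqZeroExt.ext (TrivSqZeroExt.ext h1 h2) (TrivSqZeroExt.ext h3 h4)

lemma J_le_phi : J K ≤ RingHom.ker (phi c w) := by
  apply J_le_ker (phi c w)
  intro a b hab
  simp only [phi_X]
  have : (a = 0 ∧ b = 1) ∨ (a = 1 ∧ b = 2) ∨ (a = 2 ∧ b = 3) ∨ (a = 3 ∧ b = 4) := by
    revert a b; decide
  rcases this with ⟨rfl, rfl⟩ | ⟨rfl, rfl⟩ | ⟨rfl, rfl⟩ | ⟨rfl, rfl⟩
  · refine ⟨ext4 ?_ ?_ ?_ ?_, ext4 ?_ ?_ ?_ ?_⟩ <;> simp [val, mul_comm]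
  · simp [val]
  · simp [val]
  · refine ⟨ext4 ?_ ?_ ?_ ?_, ext4 ?_ ?_ ?_ ?_⟩ <;> simp [val, mul_comm]

lemma phi_zero (g : S K) (h : g * (X (1, 0) * X (3, 0) * X (0, 1) * X (4, 1)) ∈ J K) :
    eval₂Hom c (fun p => if p.2 = 0 ∨ p.1 = 2 then 0 else w p.1) g * (w 1 * w 3 * w 0 * w 4) = 0 := by
  have h1 : phi c w (g * (X (1, 0) * X (3, 0) * X (0, 1) * X (4, 1))) = 0 := J_le_phi c w h
  have h2 := congrArg (fun z : DualNumber (DualNumber A) => z.snd.snd) h1
  have h3 : phi c w (X (1, 0) * X (3, 0) * X (0, 1) * X (4, 1)) = TrivSqZeroExt.inr (TrivSqZeroExt.inr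
      (w 1 * w 3 * w 0 * w 4)) := by
    simp only [map_mul, phi_X]
    refine ext4 ?_ ?_ ?_ ?_ <;> simp [val, mul_assoc]
  rw [map_mul, h3] at h2
  rw [← phi_fst, mul_comm]
  simpa using h2

end generic

noncomputable def f0 (K : Type*) [Field K] : S K := X (1, 0) * X (3, 0) * X (0, 1) * X (4, 1)

lemma kill (p : Fin 5 × Fin (1 + 1)) : (X p - pr K (X p)) * f0 K ∈ J K := by
  have a01 := mem0 (K := K) (a := 0) (b := 1) (by decide) (by decide)
  have a12 := mem0 (K := K) (a := 1) (b := 2) (by decide) (by decide)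
  have a23 := mem0 (K := K) (a := 2) (b := 3) (by decide) (by decide)
  have a34 := mem0 (K := K) (a := 3) (b := 4) (by decide) (by decide)
  have b01 := mem1 (K := K) (a := 0) (b := 1) (by decide) (by decide)
  have b12 := mem1 (K := K) (a := 1) (b := 2) (by decide) (by decide)
  have b34 := mem1 (K := K) (a := 3) (b := 4) (by decide) (by decide)
  obtain ⟨a, b⟩ := p
  fin_cases a <;> fin_cases b <;> simp [pr, f0]
  · convert (J K).mul_mem_left (X (3, 0) * X (0, 1) * X (4, 1)) a01 using 1; ring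
  · convert (J K).sub_mem ((J K).mul_mem_left (X (1, 0) * X (3, 0) * X (4, 1)) b01)
      ((J K).mul_mem_left (X (1, 1) * X (3, 0) * X (4, 1)) a01) using 1; ring
  · convert (J K).mul_mem_left (X (3, 0) * X (0, 1) * X (4, 1)) a12 using 1; ring
  · convert (J K).sub_mem ((J K).mul_mem_left (X (3, 0) * X (0, 1) * X (4, 1)) b12)
      ((J K).mul_mem_left (X (1, 1) * X (0, 1) * X (4, 1)) a23) using 1; ring
  · convert (J K).sub_mem ((J K).mul_mem_left (X (1, 0) * X (3, 0) * X (0, 1)) b34)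
      ((J K).mul_mem_left (X (3, 1) * X (1, 0) * X (0, 1)) a34) using 1; ring
  · convert (J K).mul_mem_left (X (1, 0) * X (0, 1) * X (4, 1)) a34 using 1; ring

lemma kill' (g : S K) : (g - pr K g) * f0 K ∈ J K := by
  induction g using MvPolynomial.induction_on with
  | C a => simp [pr]
  | add p q hp hq => convert (J K).add_mem hp hq using 1; rw [map_add]; ring
  | mul_X p i hp =>
    convert (J K).add_mem ((J K).mul_mem_left (X i) hp) ((J K).mul_mem_left (pr K p) (kill i)) using 1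
    rw [map_mul]; ring

lemma ann (g : S K) : g * f0 K ∈ J K ↔ pr K g = 0 := by
  constructor
  · intro h
    have h1 := phi_zero (C : K →+* S K) (fun i => X (i, 1)) g h
    have h2 : (fun p : Fin 5 × Fin (1 + 1) => if p.2 = 0 ∨ p.1 = 2 then (0 : S K) else X (p.1, 1)) =
        fun p => if p.2 = 0 ∨ p.1 = 2 then 0 else X p := by
      funext ⟨a, b⟩
      fin_cases b <;> simp
    rw [h2] at h1
    simpa [X_ne_zero, pr] using h1
  · intro h
    simpa [h] using kill' g

theorem result (K : Type*) [Field K] : IsClutter path5 ∧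
    ∃ P ∈ associatedPrimes (MvPolynomial (Fin 5 × Fin (1 + 1)) K)
      (MvPolynomial (Fin 5 × Fin (1 + 1)) K ⧸ jetIdeal 1 (edgeIdeal K path5)),
      P ∉ (jetIdeal 1 (edgeIdeal K path5)).minimalPrimes := by
  refine ⟨⟨by decide, by decide⟩, RingHom.ker (pr K), ?_, ?_⟩
  · refine isAssociatedPrime_iff.2 ⟨RingHom.ker_isPrime _, Ideal.Quotient.mk _ (f0 K), ?_⟩
    ext g
    rw [RingHom.mem_ker, Submodule.mem_colon_singleton, Submodule.mem_bot, ← ann,
      ← Ideal.Quotient.eq_zero_iff_mem, map_mul]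
    rfl
  · intro h
    have hQ : J K ≤ RingHom.ker (pr' K) := J_le_ker _ fun a b _ => by simp [pr']
    have hc : (pr K).comp (pr' K) = pr K := by
      refine MvPolynomial.ringHom_ext (fun a => by simp [pr, pr']) fun p => ?_
      by_cases hp : p.2 = 0 <;> simp [pr, pr', hp]
    have hle : RingHom.ker (pr' K) ≤ RingHom.ker (pr K) := fun g hg => by
      rw [RingHom.mem_ker, ← hc, RingHom.comp_apply, RingHom.mem_ker.1 hg, map_zero]
    have := h.2 ⟨RingHom.ker_isPrime _, hQ⟩ hle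
    have h2 : (X (2, 1) : S K) ∈ RingHom.ker (pr K) := by simp [RingHom.mem_ker, pr]
    have h3 := this h2
    simp [RingHom.mem_ker, pr'] at h3

end Pool.Agent.Results.MP_dc74b6_ag.Counter
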